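import Mathlib

/-!
# Linear lower bound for the number of distinct abelian squares: definitions

`f : ℤ → ℤ` is the prefix counting function of a binary word (`f x` = number of `b`'s among the first
`x` letters).  A factor with centre `c` and radius `r` (letters `c-r+1, ..., c+r`) is an abelian square
iff `F f c r = 0`.
-/

namespace Pool.Agent.helper20.LB

/-- unit step function: `f (x+1) - f x ∈ {0,1}` -/
def Step (f : ℤ → ℤ) : Prop := ∀ x, f x ≤ f (x + 1) ∧ f (x + 1) ≤ f x + 1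

/-- number of `b`'s in the right half minus number of `b`'s in the left half -/
def F (f : ℤ → ℤ) (c r : ℤ) : ℤ := f (c + r) + f (c - r) - 2 * f c

/-- `s = (c, r)` is (the centre and radius of) an abelian square inside `[0, n]` -/
def IsSq (f : ℤ → ℤ) (n : ℤ) (s : ℤ × ℤ) : Prop :=
  1 ≤ s.2 ∧ 0 ≤ s.1 - s.2 ∧ s.1 + s.2 ≤ n ∧ F f s.1 s.2 = 0

/-- the factors `(c, r)` and `(c', r')` are the same word -/
def Same (f : ℤ → ℤ) (s t : ℤ × ℤ) : Prop :=
  s.2 = t.2 ∧ ∀ j, -s.2 ≤ j → j ≤ s.2 → f (s.1 + j) - f s.1 = f (t.1 + j) - f t.1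

/-- there are at most `E` distinct abelian squares inside `[0, n]` -/
def Bd (f : ℤ → ℤ) (n : ℤ) (E : ℕ) : Prop :=
  ∀ A : Finset (ℤ × ℤ), (∀ s ∈ A, IsSq f n s) →
    (∀ s ∈ A, ∀ t ∈ A, Same f s t → s = t) → A.card ≤ E

/-- complementary word -/
def co (f : ℤ → ℤ) (x : ℤ) : ℤ := x - f x

/-- `Pos f k y`: at the smallest radius for which the left half (ending at `y`) has `k` `b`'s,
the right half has at least `k+1` `b`'s. -/
def Pos (f : ℤ → ℤ) (k y : ℤ) : Prop :=
  ∃ r, 1 ≤ r ∧ f y - f (y - (r - 1)) ≤ k - 1 ∧ k + 1 ≤ f (y + r) - f y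

/-- the window `[u, u+m-1]` of length `m` contains at least `m/24` columns of height `≥ m` -/
def Dense (Ht : ℤ → ℤ) (u m : ℤ) : Prop :=
  m ≤ 24 * (((Finset.Icc u (u + m - 1)).filter (fun t => m ≤ Ht t)).card : ℤ)

end Pool.Agent.helper20.LB
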