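import Pool.Agent.helper20.LB.R

namespace Pool.Agent.helper20.LB

theorem mp (f : ℤ → ℤ) {y p h q : ℤ} (hp : 0 < p)
    (hper : ∀ j, -h ≤ j → j ≤ h → f (y + p + j) = f (y + j) + q)
    (S : Finset ℤ) (hS : S.Nonempty)
    (hstep : ∀ z ∈ S, ∃ r, 0 < F f z r ∧
      (z + r ∈ S ∨ (z + r - p ∈ S ∧ -h ≤ z + r - p - y ∧ z + r - p - y ≤ h)) ∧
      (z - r ∈ S ∨ (z - r + p ∈ S ∧ -h ≤ z - r - y ∧ z - r - y ≤ h))) : False := by
  obtain ⟨z, hz, hmax⟩ := Finset.exists_max_image S (fun u => p * f u - q * u) hS
  obtain ⟨r, hF, hR, hL⟩ := hstep z hz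
  have hgr : p * f (z + r) - q * (z + r) ≤ p * f z - q * z := by
    rcases hR with h | ⟨h, ha, hb⟩
    · exact hmax _ h
    · have h1 := hmax _ h
      have h2 := hper (z + r - p - y) ha hb
      have e1 : y + p + (z + r - p - y) = z + r := by ring
      have e2 : y + (z + r - p - y) = z + r - p := by ring
      rw [e1, e2] at h2
      rw [h2]
      nlinarith [h1]
  have hgl : p * f (z - r) - q * (z - r) ≤ p * f z - q * z := by
    rcases hL with h | ⟨h, ha, hb⟩
    · exact hmax _ h
    · have h1 := hmax _ h
      have h2 := hper (z - r - y) ha hb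
      have e1 : y + p + (z - r - y) = z - r + p := by ring
      have e2 : y + (z - r - y) = z - r := by ring
      rw [e1, e2] at h2
      rw [h2] at h1
      nlinarith [h1]
  have hneg : p * F f z r ≤ 0 := by
    unfold F
    nlinarith [hgr, hgl]
  have : 0 < p * F f z r := mul_pos hp hF
  omega

/-- reflecting the heights -/
theorem dense_reflect (Ht : ℤ → ℤ) (c u m : ℤ) :
    Dense (fun t => Ht (c - t)) u m ↔ Dense Ht (c - u - m + 1) m := by
  unfold Dense
  have : ((Finset.Icc u (u + m - 1)).filter (fun t => m ≤ Ht (c - t))).card =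
      ((Finset.Icc (c - u - m + 1) (c - u - m + 1 + m - 1)).filter (fun t => m ≤ Ht t)).card := by
    apply Finset.card_bij (fun t _ => c - t)
    · intro t ht
      simp only [Finset.mem_filter, Finset.mem_Icc] at ht ⊢
      exact ⟨by omega, ht.2⟩
    · intro a _ b _ hab
      omega
    · intro t ht
      simp only [Finset.mem_filter, Finset.mem_Icc] at ht
      refine ⟨c - t, ?_, by ring⟩
      simp only [Finset.mem_filter, Finset.mem_Icc]
      refine ⟨by omega, ?_⟩
      have : c - (c - t) = t := by ring
      rw [this]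
      exact ht.2
  rw [this]

theorem far_distinct (f Ht : ℤ → ℤ) {y p ρ h D : ℤ} (h1 : 1 ≤ ρ) (h2 : ρ ≤ h) (hp : 16 * ρ ≤ p)
    (hD : 5 * ρ + p ≤ D)
    (hper : ∀ j, -h ≤ j → j ≤ h → f (y + p + j) - f (y + p) = f (y + j) - f y)
    (hpos : ∀ z, y ≤ z → z ≤ y + p → ∀ r, Ht z < r → r ≤ D → 0 < F f z r)
    (cone : ∀ u m, 1 ≤ m → y ≤ u → u + m - 1 ≤ y + p → Dense Ht u m →
      127 * m ≤ 129 * ρ + |u - y| ∧ 127 * m ≤ 129 * ρ + |u + m - 1 - (y + p)|) : False := by
  set S : Finset ℤ := (Finset.Icc y (y + p)).filter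
    (fun z => ρ ≤ 4 * min (z - y) (y + p - z) ∧ 64 * Ht z < 70 * ρ + min (z - y) (y + p - z)) with hSdef
  have hmem : ∀ z, z ∈ S ↔ (ρ ≤ 4 * min (z - y) (y + p - z) ∧
      64 * Ht z < 70 * ρ + min (z - y) (y + p - z)) := by
    intro z
    rw [hSdef, Finset.mem_filter, Finset.mem_Icc]
    constructor
    · intro hh; exact hh.2
    · intro hh; exact ⟨by omega, hh⟩
  -- nonempty
  have hS : S.Nonempty := by
    obtain ⟨m, hm1, hm2⟩ : ∃ m : ℤ, 71 * ρ ≤ 64 * m ∧ 64 * m ≤ 71 * ρ + 63 :=
      ⟨(71 * ρ + 63) / 64, by omega, by omega⟩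
    by_contra hne
    rw [Finset.not_nonempty_iff_eq_empty] at hne
    have hall : ∀ z, y + ρ ≤ z → z ≤ y + ρ + m - 1 → m ≤ Ht z := by
      intro z ha hb
      by_contra hlt
      have : z ∈ S := by
        rw [hmem]
        constructor <;> omega
      rw [hne] at this
      simp at this
    have hd : Dense Ht (y + ρ) m := by
      unfold Dense
      have : (Finset.Icc (y + ρ) (y + ρ + m - 1)).filter (fun t => m ≤ Ht t) =
          Finset.Icc (y + ρ) (y + ρ + m - 1) := by
        apply Finset.filter_true_of_mem
        intro z hz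
        rw [Finset.mem_Icc] at hz
        exact hall z hz.1 hz.2
      rw [this, Int.card_Icc]
      omega
    have := (cone (y + ρ) m (by omega) (by omega) (by omega) hd).1
    rw [abs_of_nonneg (by omega)] at this
    omega
  refine mp f (y := y) (p := p) (h := h) (q := f (y + p) - f y) (by omega) ?_ S hS ?_
  · intro j ha hb
    have := hper j ha hb
    omega
  · intro z hz
    have hz' := (hmem z).1 hz
    rcases le_or_gt (z - y) (y + p - z) with hzl | hzl
    · -- closer to the left end
      obtain ⟨r, r1, r2, ⟨r3, r4⟩, r5⟩ := exists_r Ht (y := y) (p := p) (ρ := ρ) (h := h)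
        (x := z - y) h1 h2 hp (by omega) (by omega) cone
      have ez : y + (z - y) + r = z + r := by ring
      have ez2 : y + (z - y) - r = z - r := by ring
      rw [ez] at r4
      refine ⟨r, ?_, ?_, ?_⟩
      · apply hpos z (by omega) (by omega) r (by omega) (by omega)
      · left
        rw [hmem]
        constructor <;> omega
      · rcases r5 with ⟨s1, s2, s3⟩ | ⟨s1, s2, s3, s4, s5⟩
        · left
          rw [ez2] at s3
          rw [hmem]
          constructor <;> omega
        · right
          have ez3 : y + p - (r - (z - y)) = z - r + p := by ring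
          rw [ez3] at s5
          refine ⟨?_, by omega, by omega⟩
          rw [hmem]
          constructor <;> omega
    · -- closer to the right end: reflect
      have cone' : ∀ u m, 1 ≤ m → y ≤ u → u + m - 1 ≤ y + p →
          Dense (fun t => Ht (2 * y + p - t)) u m →
          127 * m ≤ 129 * ρ + |u - y| ∧ 127 * m ≤ 129 * ρ + |u + m - 1 - (y + p)| := by
        intro u m hm hu1 hu2 hd
        have hd' := (dense_reflect Ht (2 * y + p) u m).1 hd
        have := cone (2 * y + p - u - m + 1) m hm (by omega) (by omega) hd'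
        obtain ⟨c1, c2⟩ := this
        have e1 : |2 * y + p - u - m + 1 - y| = |u + m - 1 - (y + p)| := by
          rw [← abs_neg]; congr 1; ring
        have e2 : |2 * y + p - u - m + 1 + m - 1 - (y + p)| = |u - y| := by
          rw [← abs_neg]; congr 1; ring
        rw [e1] at c1
        rw [e2] at c2
        exact ⟨c2, c1⟩
      obtain ⟨r, r1, r2, ⟨r3, r4⟩, r5⟩ := exists_r (fun t => Ht (2 * y + p - t)) (y := y) (p := p)
        (ρ := ρ) (h := h) (x := y + p - z) h1 h2 hp (by omega) (by omega) cone'
      have ez : 2 * y + p - (y + (y + p - z) + r) = z - r := by ring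
      have ez2 : 2 * y + p - (y + (y + p - z) - r) = z + r := by ring
      rw [ez] at r4
      refine ⟨r, ?_, ?_, ?_⟩
      · apply hpos z (by omega) (by omega) r (by omega) (by omega)
      · rcases r5 with ⟨s1, s2, s3⟩ | ⟨s1, s2, s3, s4, s5⟩
        · left
          rw [ez2] at s3
          rw [hmem]
          constructor <;> omega
        · right
          have ez3 : 2 * y + p - (y + p - (r - (y + p - z))) = z + r - p := by ring
          rw [ez3] at s5
          refine ⟨?_, by omega, by omega⟩
          rw [hmem]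
          constructor <;> omega
      · left
        rw [hmem]
        constructor <;> omega

end Pool.Agent.helper20.LB
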