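import Pool.Agent.helper20.LB.FD
import Pool.Agent.helper61.LB.O
import Pool.Agent.helper19.LB.HT
import Pool.Agent.helper19.LB.V

namespace Pool.Agent.helper20.LB

/-- two occurrences of a maximal square in different windows -/
theorem pair_far {g : ℤ → ℤ} {E : ℕ} {D L a b : ℤ}
    (hLD : L = D - 6 * E - 9) (hDE : 14 * (E : ℤ) + 24 ≤ D)
    (hab : 2 * (b - a) ≤ L)
    {Ht : ℤ → ℤ} (hHt : ∀ c, 0 ≤ Ht c ∧ Ht c ≤ D ∧ F g c (Ht c) ≤ 0 ∧
      (∀ r, Ht c < r → r ≤ D → 0 < F g c r) ∧ (Ht c < D → F g c (Ht c) = 0))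
    {S : Finset (ℤ × ℤ)}
    (hS1 : ∀ s ∈ S, 1 ≤ s.2 ∧ a ≤ s.1 ∧ s.1 + s.2 - 1 ≤ b ∧ Dense Ht s.1 s.2)
    (hS2 : ∀ s ∈ S, ∀ u m, 1 ≤ m → a ≤ u → u + m - 1 ≤ b → Dense Ht u m →
        128 * m ≤ 128 * s.2 + |u - s.1|)
    (hS3 : ∀ s ∈ S, ∀ t ∈ S, s ≠ t → 18 * (s.2 + t.2) < |s.1 - t.1|)
    {y y' h : ℤ} (hyy : y < y') {s s' : ℤ × ℤ} (hs : s ∈ S) (hs' : s' ∈ S) (hne : s ≠ s')
    (hy1 : s.1 ≤ y) (hy2 : y ≤ s.1 + s.2 - 1) (hy3 : s.2 ≤ h)
    (hy1' : s'.1 ≤ y') (hy2' : y' ≤ s'.1 + s'.2 - 1) (hy3' : s'.2 ≤ h)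
    (hh : h ≤ 2 * E + 3)
    (hper : ∀ j, -h ≤ j → j ≤ h → g (y' + j) - g y' = g (y + j) - g y) : False := by
  have h1 := hS1 s hs
  have h1' := hS1 s' hs'
  have h3 := hS3 s hs s' hs' hne
  obtain ⟨ρ, hρ1, hρ2, hρ3⟩ : ∃ ρ : ℤ, s.2 ≤ ρ ∧ s'.2 ≤ ρ ∧ (ρ = s.2 ∨ ρ = s'.2) :=
    ⟨max s.2 s'.2, by omega, by omega, by omega⟩
  have hp : 16 * ρ ≤ y' - y := by
    rcases abs_cases (s.1 - s'.1) with ⟨e, _⟩ | ⟨e, _⟩ <;> rw [e] at h3 <;> omega
  apply far_distinct g Ht (y := y) (p := y' - y) (ρ := ρ) (h := h) (D := D)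
  · omega
  · omega
  · exact hp
  · omega
  · intro j ha hb
    have := hper j ha hb
    have e1 : y + (y' - y) + j = y' + j := by ring
    have e2 : y + (y' - y) = y' := by ring
    rw [e1, e2]
    exact this
  · intro z _ _ r hr1 hr2
    exact (hHt z).2.2.2.1 r hr1 hr2
  · intro u m hm hu1 hu2 hd
    have c1 := hS2 s hs u m hm (by omega) (by omega) hd
    have c2 := hS2 s' hs' u m hm (by omega) (by omega) hd
    have e1 : y + (y' - y) = y' := by ring
    rw [e1]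
    constructor
    · rcases abs_cases (u - s.1) with ⟨e, _⟩ | ⟨e, _⟩ <;> rw [e] at c1 <;>
        rcases abs_cases (u - y) with ⟨e', _⟩ | ⟨e', _⟩ <;> rw [e'] <;> omega
    · rcases abs_cases (u - s'.1) with ⟨e, _⟩ | ⟨e, _⟩ <;> rw [e] at c2 <;>
        rcases abs_cases (u + m - 1 - y') with ⟨e', _⟩ | ⟨e', _⟩ <;> rw [e'] <;> omega

theorem main_signed {g : ℤ → ℤ} (hg : Step g) {n : ℤ} {E : ℕ} (hE : Bd g n E) {D L a b : ℤ}
    (hLD : L = D - 6 * E - 9) (hDE : 14 * (E : ℤ) + 24 ≤ D) (hn : D + L + D ≤ n)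
    (ha : D ≤ a) (hb : b ≤ D + L) (hL : L ≤ 2 * (b - a + 1)) (hab : 2 * (b - a) ≤ L)
    (hpos : ∀ c, a ≤ c → c ≤ b → (∀ r, 2 * (E : ℤ) + 4 ≤ r → r ≤ D → F g c r ≠ 0) →
        ∀ r, 2 * (E : ℤ) + 4 ≤ r → r ≤ D → 0 < F g c r) :
    b - a + 1 ≤ 15792 * E := by
  obtain ⟨Ht, hHt⟩ := exists_height hg (D := D) (by omega)
  obtain ⟨S, hS1, hS2, hS3, hS4⟩ := select Ht (a := a) (b := b) (by omega)
    (fun c _ _ => height_adj hg (by omega) hHt c)
  classical
  set W : ℤ × ℤ → Finset ℤ :=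
    fun s => (Finset.Icc s.1 (s.1 + s.2 - 1)).filter (fun t => s.2 ≤ Ht t) with hW
  set A : Finset ℤ := S.biUnion W with hA
  have hmemW : ∀ s t, t ∈ W s ↔ (s.1 ≤ t ∧ t ≤ s.1 + s.2 - 1) ∧ s.2 ≤ Ht t := by
    intro s t
    rw [hW]
    simp only [Finset.mem_filter, Finset.mem_Icc]
  -- bad columns have a zero
  have hzero : ∀ y, a ≤ y → y ≤ b → 2 * (E : ℤ) + 4 ≤ Ht y →
      ∃ r, 2 * (E : ℤ) + 4 ≤ r ∧ r ≤ D ∧ F g y r = 0 := by
    intro y hy1 hy2 hy3
    by_contra hcon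
    push Not at hcon
    have h1 := hpos y hy1 hy2 hcon (Ht y) hy3 (hHt y).2.1
    have h2 := (hHt y).2.2.1
    omega
  choose! z hz1 hz2 hz3 using hzero
  set hh : ℤ → ℤ := fun y => if Ht y < 2 * E + 4 then Ht y else z y with hhh
  have hhlow : ∀ y, Ht y < 2 * E + 4 → hh y = Ht y := by
    intro y hy
    rw [hhh]
    simp only [hy, if_true]
  have hhhigh : ∀ y, ¬ (Ht y < 2 * E + 4) → hh y = z y := by
    intro y hy
    rw [hhh]
    simp only [hy, if_false]
  have hAmem : ∀ y ∈ A, ∃ s ∈ S, s.1 ≤ y ∧ y ≤ s.1 + s.2 - 1 ∧ s.2 ≤ Ht y := by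
    intro y hy
    rw [hA, Finset.mem_biUnion] at hy
    obtain ⟨s, hs, hys⟩ := hy
    have := (hmemW s y).1 hys
    exact ⟨s, hs, this.1.1, this.1.2, this.2⟩
  have hsq : ∀ y ∈ A, IsSq g n (y, hh y) := by
    intro y hy
    obtain ⟨s, hs, y1, y2, y3⟩ := hAmem y hy
    have h1 := hS1 s hs
    by_cases hlow : Ht y < 2 * E + 4
    · rw [hhlow y hlow]
      have hz : F g y (Ht y) = 0 := (hHt y).2.2.2.2 (by omega)
      refine ⟨?_, ?_, ?_, ?_⟩ <;> simp only <;> omega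
    · rw [hhhigh y hlow]
      have q1 := hz1 y (by omega) (by omega) (by omega)
      have q2 := hz2 y (by omega) (by omega) (by omega)
      have q3 := hz3 y (by omega) (by omega) (by omega)
      refine ⟨?_, ?_, ?_, ?_⟩ <;> simp only <;> omega
  have hcard : A.card ≤ 2 * E := by
    apply Bd_two hE A hh hsq
    intro y1 hy1 y2 hy2 y3 hy3 h12 h23 hs21 hs23
    obtain ⟨s1, hs1, a1, b1, c1⟩ := hAmem y1 hy1
    obtain ⟨s2, hs2, a2, b2, c2⟩ := hAmem y2 hy2
    obtain ⟨s3, hs3, a3, b3, c3⟩ := hAmem y3 hy3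
    have w1 := hS1 s1 hs1
    have w2 := hS1 s2 hs2
    have w3 := hS1 s3 hs3
    have hsmall : hh y2 < 2 * E + 4 := by
      by_contra hbig
      have := uniq hg hE (hsq y2 hy2) (hsq y1 hy1) (by simpa using (not_lt.1 hbig)) hs21
      have := congrArg Prod.fst this
      simp only at this
      omega
    have e12 : hh y2 = hh y1 := hs21.1
    have e23 : hh y2 = hh y3 := hs23.1
    have low : ∀ y, a ≤ y → y ≤ b → hh y < 2 * E + 4 → Ht y = hh y := by
      intro y ya yb hy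
      by_cases hlow : Ht y < 2 * E + 4
      · exact (hhlow y hlow).symm
      · have := hhhigh y hlow
        have q1 := hz1 y ya yb (by omega)
        omega
    have l1 := low y1 (by omega) (by omega) (by omega)
    have l2 := low y2 (by omega) (by omega) (by omega)
    have l3 := low y3 (by omega) (by omega) (by omega)
    obtain ⟨h, hdef⟩ : ∃ h, h = hh y2 := ⟨_, rfl⟩
    have per21 : ∀ j, -h ≤ j → j ≤ h → g (y2 + j) - g y2 = g (y1 + j) - g y1 := by
      intro j ja jb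
      exact hs21.2 j (by simp only; omega) (by simp only; omega)
    have per32 : ∀ j, -h ≤ j → j ≤ h → g (y3 + j) - g y3 = g (y2 + j) - g y2 := by
      intro j ja jb
      exact (hs23.2 j (by simp only; omega) (by simp only; omega)).symm
    by_cases k12 : s1 = s2
    · by_cases k23 : s2 = s3
      · subst k12
        subst k23
        obtain ⟨R, hR1, hR2, hR3⟩ := three_occ hg (h := h) (p1 := y2 - y1) (p2 := y3 - y2) (y := y2)
          (by omega) (by omega) (by omega) (by omega)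
          (by
            intro j ja jb
            have := per21 j ja jb
            have e : y2 - (y2 - y1) = y1 := by ring
            rw [e]
            exact this.symm)
          (by
            intro j ja jb
            have := per32 j ja jb
            have e : y2 + (y3 - y2) = y3 := by ring
            rw [e]
            exact this)
        have := (hHt y2).2.2.2.1 R (by omega) (by omega)
        omega
      · exact pair_far hLD hDE hab hHt hS1 hS2 hS3 h23 hs2 hs3 k23 a2 b2 (by omega) a3 b3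
          (by omega) (h := h) (by omega) per32
    · exact pair_far hLD hDE hab hHt hS1 hS2 hS3 h12 hs1 hs2 k12 a1 b1 (by omega) a2 b2
        (by omega) (h := h) (by omega) per21
  have hcardA : A.card = ∑ s ∈ S, (W s).card := by
    rw [hA]
    apply Finset.card_biUnion
    intro s hs t ht hst
    have h3 := hS3 s hs t ht hst
    have w1 := hS1 s hs
    have w2 := hS1 t ht
    change Disjoint (W s) (W t)
    rw [Finset.disjoint_left]
    intro x hx hx'
    rw [hmemW] at hx hx'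
    rcases abs_cases (s.1 - t.1) with ⟨e, _⟩ | ⟨e, _⟩ <;> rw [e] at h3 <;> omega
  have hsum : ∑ s ∈ S, s.2 ≤ 24 * (A.card : ℤ) := by
    rw [hcardA]
    push_cast
    rw [Finset.mul_sum]
    apply Finset.sum_le_sum
    intro s hs
    exact (hS1 s hs).2.2.2
  have : (A.card : ℤ) ≤ 2 * E := by exact_mod_cast hcard
  omega

theorem main_abs {f : ℤ → ℤ} (hf : Step f) {n : ℤ} {E : ℕ} (hE : Bd f n E) :
    n ≤ 100000 * (E + 1) := by
  by_cases hsmall : n / 3 < 14 * (E : ℤ) + 24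
  · omega
  · push Not at hsmall
    obtain ⟨D, hD⟩ : ∃ D, D = n / 3 := ⟨_, rfl⟩
    obtain ⟨L, hL⟩ : ∃ L : ℤ, L = D - 6 * E - 9 := ⟨_, rfl⟩
    obtain ⟨g, a, b, hg, ha, hb, h1, h2, h3⟩ := one_sign hf hE (D := D) (L := L) (by omega)
      (by omega) (by omega)
    have key : b - a + 1 ≤ 15792 * E := by
      rcases hg with rfl | rfl
      · exact main_signed hf hE hL (by omega) (by omega) ha hb h1 h2 h3
      · exact main_signed (co_step hf) (co_Bd hE) hL (by omega) (by omega) ha hb h1 h2 h3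
    omega

end Pool.Agent.helper20.LB
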