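import Pool.Agent.helper20.LB.Defs

namespace Pool.Agent.helper20.LB

theorem card_of_not_dense {Ht : ℤ → ℤ} {u m : ℤ} (hnd : ¬ Dense Ht u m) (B : Finset ℤ) (g : ℤ → ℤ)
    (hinj : ∀ a ∈ B, ∀ b ∈ B, g a = g b → a = b)
    (hB : ∀ r ∈ B, u ≤ g r ∧ g r ≤ u + m - 1 ∧ m ≤ Ht (g r)) : 24 * (B.card : ℤ) < m := by
  have hle : B.card ≤ ((Finset.Icc u (u + m - 1)).filter (fun t => m ≤ Ht t)).card := by
    apply Finset.card_le_card_of_injOn g
    · intro r hr
      have h := hB r hr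
      simp only [Finset.coe_filter, Finset.mem_Icc, Set.mem_ofPred_eq]
      exact ⟨⟨h.1, h.2.1⟩, h.2.2⟩
    · intro a ha b hb hab
      exact hinj a ha b hb hab
  unfold Dense at hnd
  push Not at hnd
  have : (B.card : ℤ) ≤ (((Finset.Icc u (u + m - 1)).filter (fun t => m ≤ Ht t)).card : ℤ) := by
    exact_mod_cast hle
  linarith

theorem exists_r (Ht : ℤ → ℤ) {y p ρ h x : ℤ} (h1 : 1 ≤ ρ) (h2 : ρ ≤ h) (hp : 16 * ρ ≤ p)
    (hx : ρ ≤ 4 * x) (hxp : 2 * x ≤ p)
    (cone : ∀ u m, 1 ≤ m → y ≤ u → u + m - 1 ≤ y + p → Dense Ht u m →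
      127 * m ≤ 129 * ρ + |u - y| ∧ 127 * m ≤ 129 * ρ + |u + m - 1 - (y + p)|) :
    ∃ r, 70 * ρ + x ≤ 64 * r ∧ r ≤ 5 * ρ + p ∧
      (ρ ≤ 4 * min (x + r) (p - x - r) ∧ 64 * Ht (y + x + r) < 70 * ρ + min (x + r) (p - x - r)) ∧
      ((r ≤ x ∧ ρ ≤ 4 * (x - r) ∧ 64 * Ht (y + x - r) < 70 * ρ + (x - r)) ∨
       (x < r ∧ r - x ≤ h ∧ 2 * (r - x) ≤ p ∧ ρ ≤ 4 * (r - x) ∧
         64 * Ht (y + p - (r - x)) < 70 * ρ + (r - x))) := by
  obtain ⟨r0, hr0a, hr0b⟩ : ∃ r0 : ℤ, 70 * ρ + x ≤ 64 * r0 ∧ 64 * r0 ≤ 70 * ρ + x + 63 :=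
    ⟨(70 * ρ + x + 63) / 64, by omega, by omega⟩
  obtain ⟨m, hma, hmb⟩ : ∃ m : ℤ, 70 * ρ + x - 2 * r0 ≤ 64 * m ∧ 64 * m ≤ 70 * ρ + x - 2 * r0 + 63 :=
    ⟨(70 * ρ + x - 2 * r0 + 63) / 64, by omega, by omega⟩
  have hm1 : 1 ≤ m := by omega
  have hmr : m ≤ r0 := by omega
  have hx1 : 1 ≤ x := by omega
  -- the number of candidates
  obtain ⟨M, hM1, hM2, hM3⟩ : ∃ M : ℤ, M ≤ m ∧ M ≤ x + h - r0 + 1 ∧ (M = m ∨ M = x + h - r0 + 1) :=
    ⟨min m (x + h - r0 + 1), by omega, by omega, by omega⟩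
  by_contra hcon
  push Not at hcon
  set C : Finset ℤ := Finset.Icc r0 (r0 + M - 1) with hC
  set BR : Finset ℤ := C.filter (fun r => m ≤ Ht (y + x + r)) with hBR
  set B1 : Finset ℤ := C.filter (fun r => r ≤ x ∧ m ≤ Ht (y + x - r)) with hB1
  set B3 : Finset ℤ := C.filter (fun r => x < r ∧ m ≤ Ht (y + p - (r - x))) with hB3
  set BZ : Finset ℤ := C.filter (fun r => 4 * (x - r) < ρ ∧ 4 * (r - x) < ρ) with hBZ
  -- covering
  have hcov : C ⊆ BR ∪ B1 ∪ B3 ∪ BZ := by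
    intro r hr
    have hr' := hr
    rw [hC, Finset.mem_Icc] at hr'
    obtain ⟨hra, hrb⟩ := hr'
    by_contra hnot
    simp only [Finset.mem_union, not_or] at hnot
    obtain ⟨⟨⟨n1, n2⟩, n3⟩, n4⟩ := hnot
    have g1 : ¬ (m ≤ Ht (y + x + r)) := fun hh => n1 (Finset.mem_filter.2 ⟨hr, hh⟩)
    have g2 : ¬ (r ≤ x ∧ m ≤ Ht (y + x - r)) := fun hh => n2 (Finset.mem_filter.2 ⟨hr, hh⟩)
    have g3 : ¬ (x < r ∧ m ≤ Ht (y + p - (r - x))) := fun hh => n3 (Finset.mem_filter.2 ⟨hr, hh⟩)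
    have g4 : ¬ (4 * (x - r) < ρ ∧ 4 * (r - x) < ρ) := fun hh => n4 (Finset.mem_filter.2 ⟨hr, hh⟩)
    have hr2 : r ≤ 2 * r0 - 1 := by omega
    have c1 : 70 * ρ + x ≤ 64 * r := by omega
    have c2 : r ≤ 5 * ρ + p := by omega
    have c3 : ρ ≤ 4 * min (x + r) (p - x - r) ∧
        64 * Ht (y + x + r) < 70 * ρ + min (x + r) (p - x - r) := by
      constructor <;> omega
    have := hcon r c1 c2 c3
    rcases le_or_gt r x with hrx | hrx
    · have t1 := this.1 hrx (by omega)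
      omega
    · have t2 := this.2 hrx (by omega) (by omega) (by omega)
      omega
  have hcardC : (C.card : ℤ) = max M 0 := by
    rw [hC, Int.card_Icc]
    omega
  have hcard : (C.card : ℤ) ≤ BR.card + B1.card + B3.card + BZ.card := by
    have h1 := Finset.card_le_card hcov
    have h2 := Finset.card_union_le (BR ∪ B1 ∪ B3) BZ
    have h3 := Finset.card_union_le (BR ∪ B1) B3
    have h4 := Finset.card_union_le BR B1
    have : C.card ≤ BR.card + B1.card + B3.card + BZ.card := by omega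
    exact_mod_cast this
  -- card bounds
  have kR : 24 * (BR.card : ℤ) < m := by
    apply card_of_not_dense (Ht := Ht) (u := y + x + r0) (m := m) _ BR (fun r => y + x + r)
    · intro a _ b _ hab
      omega
    · intro r hr
      rw [hBR, Finset.mem_filter, hC, Finset.mem_Icc] at hr
      exact ⟨by omega, by omega, hr.2⟩
    · intro hd
      have := (cone (y + x + r0) m hm1 (by omega) (by omega) hd).1
      rw [abs_of_nonneg (by omega)] at this
      omega
  have k1 : 24 * (B1.card : ℤ) < m := by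
    obtain ⟨uL, hu1, hu2, hu3⟩ : ∃ uL : ℤ, y ≤ uL ∧ y + x - r0 - m + 1 ≤ uL ∧
        (uL = y ∨ uL = y + x - r0 - m + 1) :=
      ⟨max y (y + x - r0 - m + 1), by omega, by omega, by omega⟩
    apply card_of_not_dense (Ht := Ht) (u := uL) (m := m) _ B1 (fun r => y + x - r)
    · intro a _ b _ hab
      omega
    · intro r hr
      rw [hB1, Finset.mem_filter, hC, Finset.mem_Icc] at hr
      exact ⟨by omega, by omega, hr.2.2⟩
    · intro hd
      have := (cone uL m hm1 (by omega) (by omega) hd).1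
      rw [abs_of_nonneg (by omega)] at this
      omega
  have k3 : 24 * (B3.card : ℤ) < m := by
    obtain ⟨e, he1, he2, he3⟩ : ∃ e : ℤ, e ≤ y + p ∧ e ≤ y + p + x - r0 ∧
        (e = y + p ∨ e = y + p + x - r0) :=
      ⟨min (y + p) (y + p + x - r0), by omega, by omega, by omega⟩
    apply card_of_not_dense (Ht := Ht) (u := e - m + 1) (m := m) _ B3 (fun r => y + p - (r - x))
    · intro a _ b _ hab
      omega
    · intro r hr
      rw [hB3, Finset.mem_filter, hC, Finset.mem_Icc] at hr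
      exact ⟨by omega, by omega, hr.2.2⟩
    · intro hd
      have := (cone (e - m + 1) m hm1 (by omega) (by omega) hd).2
      rw [abs_of_nonpos (by omega)] at this
      omega
  have kZ : 2 * (BZ.card : ℤ) ≤ ρ + 1 := by
    have hsub : BZ ⊆ Finset.Icc (x - (ρ - 1) / 4) (x + (ρ - 1) / 4) := by
      intro r hr
      rw [hBZ, Finset.mem_filter] at hr
      rw [Finset.mem_Icc]
      omega
    have := Finset.card_le_card hsub
    rw [Int.card_Icc] at this
    omega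
  rcases le_or_gt ρ (4 * (r0 - x)) with hA | hA
  · -- case A
    have e1 : B1 = ∅ := by
      rw [hB1, Finset.filter_eq_empty_iff]
      intro r hr
      rw [hC, Finset.mem_Icc] at hr
      omega
    have e2 : BZ = ∅ := by
      rw [hBZ, Finset.filter_eq_empty_iff]
      intro r hr
      rw [hC, Finset.mem_Icc] at hr
      omega
    rw [e1, e2] at hcard
    simp only [Finset.card_empty, Nat.cast_zero, add_zero] at hcard
    rcases hM3 with hM | hM <;> omega
  · -- case B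
    rcases hM3 with hM | hM <;> omega

end Pool.Agent.helper20.LB
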